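import Pool.Agent.V5helper19.ER.Stm

/-! # Project ER, job P3: orthogonality -/

set_option autoImplicit false
open Finset V5helper19.ER

namespace Pool.Agent.V5helper86.ER

variable {n m : ℕ}

/-- an element of the alternating group with the given permutation `swap * swap` -/
lemma exists_even {a b c d : Fin n} (hab : a ≠ b) (hcd : c ≠ d) :
    ∃ u : G n, (u : Equiv.Perm (Fin n)) = Equiv.swap a b * Equiv.swap c d :=
  ⟨⟨Equiv.swap a b * Equiv.swap c d, by
    rw [Equiv.Perm.mem_alternatingGroup, map_mul, Equiv.Perm.sign_swap hab,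
      Equiv.Perm.sign_swap hcd]
    norm_num⟩, rfl⟩

lemma exists_uu (e : Fin m × Fin 4 ↪ Fin n) (i : Fin m) :
    ∃ u : G n, (u : Equiv.Perm (Fin n)) = uu e i := by
  refine exists_even ?_ ?_
  · intro h
    have := congrArg Prod.snd (e.injective h)
    simp at this
  · intro h
    have := congrArg Prod.snd (e.injective h)
    simp at this

lemma exists_vv (e : Fin m × Fin 4 ↪ Fin n) (i : Fin m) :
    ∃ u : G n, (u : Equiv.Perm (Fin n)) = vv e i := by
  refine exists_even ?_ ?_
  · intro h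
    have := congrArg Prod.snd (e.injective h)
    simp at this
  · intro h
    have := congrArg Prod.snd (e.injective h)
    simp at this

lemma sum_inv {w w' : G n → ℝ} (u : G n) {a b : ℝ} (h : ∀ x, w (x * u) = a * w x)
    (h' : ∀ x, w' (x * u) = b * w' x) (hab : a * b = -1) : ∑ x, w x * w' x = 0 := by
  have h1 : ∑ x, w (x * u) * w' (x * u) = ∑ x, w x * w' x :=
    Fintype.sum_equiv (Equiv.mulRight u) _ _ fun x => rfl
  have h2 : ∑ x, w (x * u) * w' (x * u) = (a * b) * ∑ x, w x * w' x := by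
    rw [Finset.mul_sum]
    refine Finset.sum_congr rfl fun x _ => ?_
    rw [h, h']
    ring
  rw [hab] at h2
  linarith

lemma sg_mul {a b : Bool} (h : a ≠ b) : sg a * sg b = -1 := by
  cases a <;> cases b <;> simp_all [sg]

/-- joint eigenvectors for different colourings are orthogonal -/
lemma orth {e : Fin m × Fin 4 ↪ Fin n} {γ γ' : Fin m → Bool × Bool} (hγ : γ ≠ γ')
    {w w' : G n → ℝ} (hw : IsCol e γ w) (hw' : IsCol e γ' w') : ∑ x, w x * w' x = 0 := by
  obtain ⟨i, hi⟩ := Function.ne_iff.1 hγ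
  by_cases h1 : (γ i).1 = (γ' i).1
  · have h2 : (γ i).2 ≠ (γ' i).2 := fun h2 => hi (Prod.ext h1 h2)
    obtain ⟨u, hu⟩ := exists_vv e i
    exact sum_inv u (fun x => (hw i x (x * u)).2 (by rw [Subgroup.coe_mul, hu]))
      (fun x => (hw' i x (x * u)).2 (by rw [Subgroup.coe_mul, hu])) (sg_mul h2)
  · obtain ⟨u, hu⟩ := exists_uu e i
    exact sum_inv u (fun x => (hw i x (x * u)).1 (by rw [Subgroup.coe_mul, hu]))
      (fun x => (hw' i x (x * u)).1 (by rw [Subgroup.coe_mul, hu])) (sg_mul h1)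

theorem t_P3 : S_P3 := by
  classical
  intro n m e W Γ U k hU
  let f : ((γ : Γ) → U γ.1) →ₗ[ℝ] W :=
    { toFun := fun v => ⟨∑ γ : Γ, (v γ : G n → ℝ),
        Submodule.sum_mem _ fun γ _ => (hU γ.1 γ.2).1 (v γ).2⟩
      map_add' := fun v v' => by
        apply Subtype.ext
        simp [Finset.sum_add_distrib]
      map_smul' := fun c v => by
        apply Subtype.ext
        simp [Finset.smul_sum] }
  have hf : Function.Injective f := by
    rw [← LinearMap.ker_eq_bot, LinearMap.ker_eq_bot']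
    intro v hv
    have h0 : ∑ γ : Γ, (v γ : G n → ℝ) = 0 := congrArg Subtype.val hv
    funext γ₀
    apply Subtype.ext
    have h1 : ∑ x, (∑ γ : Γ, (v γ : G n → ℝ)) x * (v γ₀ : G n → ℝ) x =
        ∑ x, (v γ₀ : G n → ℝ) x * (v γ₀ : G n → ℝ) x := by
      have h2 : ∀ γ : Γ, γ ≠ γ₀ → ∑ x, (v γ : G n → ℝ) x * (v γ₀ : G n → ℝ) x = 0 := by
        intro γ hγ
        exact orth (fun h => hγ (Subtype.ext h)) ((hU γ.1 γ.2).2.2 _ (v γ).2)
          ((hU γ₀.1 γ₀.2).2.2 _ (v γ₀).2)
      calc ∑ x, (∑ γ : Γ, (v γ : G n → ℝ)) x * (v γ₀ : G n → ℝ) x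
          = ∑ x, ∑ γ : Γ, (v γ : G n → ℝ) x * (v γ₀ : G n → ℝ) x := by
            refine Finset.sum_congr rfl fun x _ => ?_
            rw [Finset.sum_apply, Finset.sum_mul]
        _ = ∑ γ : Γ, ∑ x, (v γ : G n → ℝ) x * (v γ₀ : G n → ℝ) x := Finset.sum_comm
        _ = _ := Fintype.sum_eq_single γ₀ fun γ hγ => h2 γ hγ
    rw [h0] at h1
    simp only [Pi.zero_apply, zero_mul, Finset.sum_const_zero] at h1
    have h3 := (Finset.sum_eq_zero_iff_of_nonneg fun x _ => mul_self_nonneg _).1 h1.symm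
    funext x
    exact mul_self_eq_zero.1 (h3 x (Finset.mem_univ x))
  have h1 := LinearMap.finrank_le_finrank_of_injective hf
  rw [Module.finrank_pi_fintype] at h1
  refine le_trans ?_ h1
  calc k * Γ.card = ∑ _γ : Γ, k := by
        rw [Finset.sum_const, Finset.card_univ, Fintype.card_coe, smul_eq_mul, mul_comm]
    _ ≤ _ := Finset.sum_le_sum fun γ _ => (hU γ.1 γ.2).2.1

end Pool.Agent.V5helper86.ER
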